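import Pool.Agent.W886.RU.Stm0

/-!
# Project RU: the uniform operations of bounded formulas
-/

set_option autoImplicit false

namespace Pool.Agent.W924.RU.UD0

open Pool.Agent.W886.RU

theorem task1 : Pool.Agent.W886.RU.S_UD0 := by
  intro A n P h
  induction h with
  | eq p q => exact ⟨_, .eq p q, rfl⟩
  | le p q => exact ⟨_, .le p q, rfl⟩
  | orc p => exact ⟨_, .orc p, rfl⟩
  | not _ ih =>
    obtain ⟨Φ, h1, rfl⟩ := ih
    exact ⟨_, .not h1, rfl⟩
  | and _ _ ih1 ih2 =>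
    obtain ⟨Φ, h1, rfl⟩ := ih1
    obtain ⟨Ψ, h2, rfl⟩ := ih2
    exact ⟨_, .and h1 h2, rfl⟩
  | bex p _ ih =>
    obtain ⟨Φ, h1, rfl⟩ := ih
    exact ⟨_, .bex p h1, rfl⟩

/-- operations -/
abbrev Op (n : ℕ) : Type := (ℕ → Bool) → (Fin n → ℕ) → Prop

/-- polynomials -/
abbrev MP (n : ℕ) : Type := MvPolynomial (Fin n) ℕ

instance cntMP (n : ℕ) : Countable (MP n) := by
  have h : Function.Injective (fun p : MP n => AddMonoidAlgebra.coeff p) := by
    intro p q hpq
    cases p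
    cases q
    simp only at hpq
    rw [hpq]
  exact h.countable

/-- the levels -/
noncomputable def Lv : ℕ → (n : ℕ) → Set (Op n)
  | 0, n => (Set.range fun x : MP n × MP n => ((fun _ v => MvPolynomial.eval v x.1 =
      MvPolynomial.eval v x.2) : Op n)) ∪
      ((Set.range fun x : MP n × MP n => ((fun _ v => MvPolynomial.eval v x.1 ≤
        MvPolynomial.eval v x.2) : Op n)) ∪
      Set.range fun p : MP n => ((fun A v => A (MvPolynomial.eval v p) = true) : Op n))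
  | d + 1, n => Lv d n ∪ (((fun P : Op n => ((fun A v => ¬ P A v) : Op n)) '' Lv d n) ∪
      (Set.image2 (fun P Q : Op n => ((fun A v => P A v ∧ Q A v) : Op n)) (Lv d n) (Lv d n) ∪
      Set.image2 (fun (p : MP n) (P : Op (n + 1)) => ((fun A v => ∃ x,
        x ≤ MvPolynomial.eval v p ∧ P A (Matrix.vecCons x v)) : Op n)) Set.univ (Lv d (n + 1))))

theorem Lv_cnt (d : ℕ) : ∀ n, (Lv d n).Countable := by
  induction d with
  | zero =>
    intro n
    exact (Set.countable_range _).union ((Set.countable_range _).union (Set.countable_range _))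
  | succ d ih =>
    intro n
    exact (ih n).union (((ih n).image _).union (((ih n).image2 (ih n) _).union
      (Set.Countable.image2 Set.countable_univ (ih (n + 1)) _)))

theorem Lv_mono (d e : ℕ) (h : d ≤ e) (n : ℕ) : Lv d n ⊆ Lv e n := by
  induction h with
  | refl => exact fun _ h => h
  | step _ ih => exact ih.trans Set.subset_union_left

theorem Lv_mem {n : ℕ} {Φ : Op n} (h : Pool.Agent.W886.RU.UD0 n Φ) : ∃ d, Φ ∈ Lv d n := by
  induction h with
  | eq p q => exact ⟨0, Or.inl ⟨(p, q), rfl⟩⟩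
  | le p q => exact ⟨0, Or.inr (Or.inl ⟨(p, q), rfl⟩)⟩
  | orc p => exact ⟨0, Or.inr (Or.inr ⟨p, rfl⟩)⟩
  | not _ ih =>
    obtain ⟨d, hd⟩ := ih
    exact ⟨d + 1, Or.inr (Or.inl ⟨_, hd, rfl⟩)⟩
  | and _ _ ih1 ih2 =>
    obtain ⟨d, hd⟩ := ih1
    obtain ⟨e, he⟩ := ih2
    exact ⟨max d e + 1, Or.inr (Or.inr (Or.inl ⟨_, Lv_mono _ _ (le_max_left d e) _ hd, _,
      Lv_mono _ _ (le_max_right d e) _ he, rfl⟩))⟩
  | bex p _ ih =>
    obtain ⟨d, hd⟩ := ih
    exact ⟨d + 1, Or.inr (Or.inr (Or.inr ⟨p, Set.mem_univ _, _, hd, rfl⟩))⟩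

theorem task2 : Pool.Agent.W886.RU.S_CNT := by
  intro n
  refine (Set.countable_iUnion fun d => Lv_cnt d n).mono ?_
  intro Φ hΦ
  obtain ⟨d, hd⟩ := Lv_mem hΦ
  exact Set.mem_iUnion.2 ⟨d, hd⟩

end Pool.Agent.W924.RU.UD0
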